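import Mathlib

/-!
The Fourier series of the periodic tent function of half width `b`.
-/

set_option autoImplicit false

open Finset Real

namespace Pool.Agent.Helper73.RG

/-- the tent of half width `b` and mean one, with period one -/
noncomputable def tent (b u : ℝ) : ℝ := (1 / b) * max 0 (1 - |u - round u| / b)

/-- its Fourier coefficients -/
noncomputable def wt (b : ℝ) (h : ℕ) : ℝ := if h = 0 then 1 else 2 * (sin (π * h * b) / (π * h * b)) ^ 2

lemma wt_zero (b : ℝ) : wt b 0 = 1 := by simp [wt]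

lemma wt_nonneg (b : ℝ) (h : ℕ) : 0 ≤ wt b h := by
  unfold wt
  split_ifs
  · exact zero_le_one
  · positivity

lemma tent_nonneg {b : ℝ} (hb : 0 < b) (u : ℝ) : 0 ≤ tent b u := by
  unfold tent
  positivity

lemma tent_le {b : ℝ} (hb : 0 < b) (u : ℝ) : tent b u ≤ 1 / b := by
  unfold tent
  have h1 : max 0 (1 - |u - round u| / b) ≤ 1 := by
    refine max_le zero_le_one ?_
    have : 0 ≤ |u - round u| / b := by positivity
    linarith
  calc 1 / b * max 0 (1 - |u - round u| / b) ≤ 1 / b * 1 := by gcongr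
    _ = 1 / b := mul_one _

lemma tent_zero (b : ℝ) : tent b 0 = 1 / b := by
  unfold tent
  simp

lemma tent_eq_zero {b u : ℝ} (hb : 0 < b) (h : b ≤ |u - round u|) : tent b u = 0 := by
  unfold tent
  have h1 : 1 ≤ |u - round u| / b := by rwa [le_div_iff₀ hb, one_mul]
  rw [max_eq_left (by linarith), mul_zero]

lemma tent_add_int (b u : ℝ) (n : ℤ) : tent b (u + n) = tent b u := by
  unfold tent
  rw [round_add_intCast]
  push_cast
  congr 4
  ring

/-- the Bernoulli series -/
lemma hasSum_B {x : ℝ} (hx0 : 0 ≤ x) (hx1 : x ≤ 1) :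
    HasSum (fun n : ℕ => 1 / (n : ℝ) ^ 2 * cos (2 * π * n * x)) (π ^ 2 * (x ^ 2 - x + 1 / 6)) := by
  have h := hasSum_one_div_nat_pow_mul_cos (k := 1) one_ne_zero (x := x) ⟨hx0, hx1⟩
  have h1 : (-1 : ℝ) ^ (1 + 1) * (2 * π) ^ (2 * 1) / 2 / ((2 * 1).factorial : ℝ) *
      (Polynomial.map (algebraMap ℚ ℝ) (Polynomial.bernoulli (2 * 1))).eval x =
      π ^ 2 * (x ^ 2 - x + 1 / 6) := by
    simp only [Polynomial.bernoulli, sum_range_succ, sum_range_zero]
    simp [bernoulli_one, bernoulli_two, Nat.choose, Nat.factorial]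
    ring
  rw [h1] at h
  simpa using h

/-- the series for small nonnegative arguments -/
lemma hasSum_small {b u : ℝ} (hb0 : 0 < b) (hb : b ≤ 1 / 2) (hu0 : 0 ≤ u) (hu : u ≤ 1 / 2) :
    HasSum (fun h : ℕ => wt b h * cos (2 * π * h * u)) ((1 / b) * max 0 (1 - u / b)) := by
  have h1 := hasSum_B hu0 (by linarith : u ≤ 1)
  have h2 := hasSum_B (x := u + b) (by linarith) (by linarith)
  have h3 := hasSum_B (x := |u - b|) (abs_nonneg _) (by rw [abs_le]; constructor <;> linarith)
  have h4 : HasSum (fun h : ℕ => if h = 0 then (1 : ℝ) else 0) 1 := hasSum_ite_eq 0 1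
  have h5 := h4.add (((h1.sub (h2.mul_left (1 / 2))).sub (h3.mul_left (1 / 2))).mul_left
    (1 / (π ^ 2 * b ^ 2)))
  have hpi : π ≠ 0 := Real.pi_ne_zero
  convert h5 using 1
  · funext h
    by_cases h0 : h = 0
    · subst h0
      simp [wt]
    · have hh : (h : ℝ) ≠ 0 := by exact_mod_cast h0
      have e3 : cos (2 * π * h * |u - b|) = cos (2 * π * h * (u - b)) := by
        rcases abs_choice (u - b) with e | e
        · rw [e]
        · rw [e, mul_neg, Real.cos_neg]
      rw [e3]
      unfold wt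
      rw [if_neg h0, if_neg h0]
      have e4 : 2 * π * h * (u + b) = 2 * π * h * u + 2 * (π * h * b) := by ring
      have e5 : 2 * π * h * (u - b) = 2 * π * h * u - 2 * (π * h * b) := by ring
      rw [e4, e5, Real.cos_add, Real.cos_sub, Real.cos_two_mul, Real.cos_sq']
      field_simp
      ring
  · rcases le_total b u with hbu | hbu
    · have e1 : 1 ≤ u / b := by rwa [le_div_iff₀ hb0, one_mul]
      rw [max_eq_left (by linarith), abs_of_nonneg (by linarith)]
      field_simp
      ring
    · have e1 : u / b ≤ 1 := by rwa [div_le_iff₀ hb0, one_mul]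
      rw [max_eq_right (by linarith), abs_of_nonpos (by linarith)]
      field_simp
      ring

/-- **The Fourier series of the tent.** -/
theorem hasSum_tent {b : ℝ} (hb0 : 0 < b) (hb : b ≤ 1 / 2) (u : ℝ) :
    HasSum (fun h : ℕ => wt b h * cos (2 * π * h * u)) (tent b u) := by
  have h := hasSum_small hb0 hb (abs_nonneg (u - round u)) (abs_sub_round u)
  unfold tent
  convert h using 1
  funext n
  congr 1
  have e1 : cos (2 * π * n * |u - round u|) = cos (2 * π * n * (u - round u)) := by
    rcases abs_choice (u - round u) with e | e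
    · rw [e]
    · rw [e, mul_neg, Real.cos_neg]
  rw [e1]
  have e2 : 2 * π * n * (u - round u) = 2 * π * n * u - ((n * round u : ℤ) : ℝ) * (2 * π) := by
    push_cast
    ring
  rw [e2, Real.cos_sub_int_mul_two_pi]

theorem hasSum_wt {b : ℝ} (hb0 : 0 < b) (hb : b ≤ 1 / 2) : HasSum (wt b) (1 / b) := by
  have h := hasSum_tent hb0 hb 0
  rw [tent_zero] at h
  simpa using h

lemma tent_neg {b : ℝ} (hb0 : 0 < b) (hb : b ≤ 1 / 2) (u : ℝ) : tent b (-u) = tent b u := by
  refine (hasSum_tent hb0 hb (-u)).unique ?_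
  convert hasSum_tent hb0 hb u using 1
  funext n
  rw [mul_neg, Real.cos_neg]

end Pool.Agent.Helper73.RG
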