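import Pool.Agent.Helper73.RG.Tent

/-!
Trapezoid minorants of arcs with Fourier coefficients `O(1/h^2)`, and the kernel
`1 + π² B₂({u})`.
-/

set_option autoImplicit false

open Finset Real

namespace Pool.Agent.Helper73.RG

lemma hasSum_of_eq {f g : ℕ → ℝ} {a : ℝ} (h : ∀ n, f n = g n) (hg : HasSum g a) : HasSum f a := by
  have : f = g := funext h
  rw [this]
  exact hg

/-- distance to the nearest integer is one-Lipschitz -/
lemma dist_round_le (u v : ℝ) : |u - round u| ≤ |v - round v| + |u - v| := by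
  have h1 : |u - round u| ≤ |u - round v| := round_le u (round v)
  have h2 : |u - round v| ≤ |u - v| + |v - round v| := by
    have := abs_add_le (u - v) (v - round v)
    have e : u - v + (v - round v) = u - round v := by ring
    rwa [e] at this
  linarith

lemma dist_round_sub_le (u v : ℝ) : |(|u - round u| - |v - round v|)| ≤ |u - v| := by
  rw [abs_le]
  have h1 := dist_round_le u v
  have h2 := dist_round_le v u
  rw [abs_sub_comm v u] at h2
  constructor <;> linarith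

/-- the kernel -/
noncomputable def VV (u : ℝ) : ℝ := 1 + π ^ 2 * (Int.fract u ^ 2 - Int.fract u + 1 / 6)

lemma VV_eq (u : ℝ) : VV u = 1 + π ^ 2 * (|u - round u| ^ 2 - |u - round u| + 1 / 6) := by
  unfold VV
  rw [abs_sub_round_eq_min]
  rcases le_total (Int.fract u) (1 - Int.fract u) with h | h
  · rw [min_eq_left h]
  · rw [min_eq_right h]
    ring

lemma pi_sq_lt : π ^ 2 < 12 := by
  have h1 := Real.pi_lt_d2
  have h2 := Real.pi_pos
  nlinarith

lemma VV_pos (u : ℝ) : 0 < VV u := by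
  unfold VV
  have h1 : -(1 / 12 : ℝ) ≤ Int.fract u ^ 2 - Int.fract u + 1 / 6 := by
    nlinarith [sq_nonneg (Int.fract u - 1 / 2)]
  have h2 := pi_sq_lt
  have h3 : 0 < π ^ 2 := by positivity
  nlinarith

lemma VV_nonneg (u : ℝ) : 0 ≤ VV u := (VV_pos u).le

lemma VV_add_one (u : ℝ) : VV (u + 1) = VV u := by
  unfold VV
  rw [Int.fract_add_one]

lemma VV_periodic : Function.Periodic VV 1 := VV_add_one

lemma VV_add_int (u : ℝ) (n : ℤ) : VV (u + n) = VV u := by
  unfold VV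
  rw [Int.fract_add_intCast]

lemma VV_neg (u : ℝ) : VV (-u) = VV u := by
  rcases eq_or_ne (Int.fract u) 0 with h | h
  · unfold VV
    have : Int.fract (-u) = 0 := Int.fract_neg_eq_zero.mpr h
    rw [this, h]
  · unfold VV
    rw [Int.fract_neg h]
    ring

/-- the kernel is Lipschitz -/
lemma VV_lipschitz (u v : ℝ) : |VV u - VV v| ≤ π ^ 2 * |u - v| := by
  rw [VV_eq, VV_eq]
  set s := |u - round u| with hs
  set t := |v - round v| with ht
  have h1 := dist_round_sub_le u v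
  rw [← hs, ← ht] at h1
  have hs0 : 0 ≤ s := abs_nonneg _
  have ht0 : 0 ≤ t := abs_nonneg _
  have hs1 : s ≤ 1 / 2 := abs_sub_round u
  have ht1 : t ≤ 1 / 2 := abs_sub_round v
  have e : 1 + π ^ 2 * (s ^ 2 - s + 1 / 6) - (1 + π ^ 2 * (t ^ 2 - t + 1 / 6)) =
      π ^ 2 * ((s - t) * (s + t - 1)) := by ring
  rw [e, abs_mul, abs_of_pos (by positivity : (0 : ℝ) < π ^ 2), abs_mul]
  have h2 : |s + t - 1| ≤ 1 := by
    rw [abs_le]
    constructor <;> linarith
  have h3 : |s - t| * |s + t - 1| ≤ |u - v| * 1 :=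
    mul_le_mul h1 h2 (abs_nonneg _) (abs_nonneg _)
  have h4 : (0 : ℝ) ≤ π ^ 2 := by positivity
  nlinarith

lemma VV_continuous : Continuous VV := by
  have h : LipschitzWith (Real.toNNReal (π ^ 2)) VV := by
    refine LipschitzWith.of_dist_le_mul fun u v => ?_
    rw [Real.dist_eq, Real.dist_eq, Real.coe_toNNReal _ (by positivity)]
    exact VV_lipschitz u v
  exact h.continuous

lemma VV_unit {u : ℝ} (h0 : 0 ≤ u) (h1 : u ≤ 1) : VV u = 1 + π ^ 2 * (u ^ 2 - u + 1 / 6) := by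
  unfold VV
  rcases eq_or_lt_of_le h1 with h | h
  · rw [h, Int.fract_one]
    norm_num
  · rw [Int.fract_eq_self.mpr ⟨h0, h⟩]

/-- the kernel has mean one -/
lemma integral_VV : ∫ u in (0 : ℝ)..1, VV u = 1 := by
  have h1 : ∫ u in (0 : ℝ)..1, VV u = ∫ u in (0 : ℝ)..1, (1 + π ^ 2 * (u ^ 2 - u + 1 / 6)) := by
    refine intervalIntegral.integral_congr fun u hu => ?_
    rw [Set.uIcc_of_le zero_le_one] at hu
    exact VV_unit hu.1 hu.2
  have h2 : ∀ x : ℝ, HasDerivAt (fun u : ℝ => u + π ^ 2 * (u ^ 3 / 3 - u ^ 2 / 2 + u / 6))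
      (1 + π ^ 2 * (x ^ 2 - x + 1 / 6)) x := by
    intro x
    have a1 := (hasDerivAt_id x)
    have a3 := (hasDerivAt_pow 3 x).div_const 3
    have a2 := (hasDerivAt_pow 2 x).div_const 2
    have a4 := (hasDerivAt_id x).div_const 6
    have a5 := a1.fun_add ((((a3.fun_sub a2).fun_add a4)).const_mul (π ^ 2))
    refine HasDerivAt.congr_deriv a5 ?_
    push_cast
    ring
  rw [h1, intervalIntegral.integral_eq_sub_of_hasDerivAt (fun x _ => h2 x)
    (Continuous.intervalIntegrable (by fun_prop) _ _)]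
  norm_num

/-- the cosine series of the kernel -/
theorem hasSum_VV (u : ℝ) :
    HasSum (fun h : ℕ => 1 / ((h : ℝ) + 1) ^ 2 * cos (2 * π * ((h : ℝ) + 1) * u)) (VV u - 1) := by
  have h := hasSum_B (x := Int.fract u) (Int.fract_nonneg _) (Int.fract_lt_one _).le
  have h1 := (hasSum_nat_add_iff' 1).mpr h
  have e1 : π ^ 2 * (Int.fract u ^ 2 - Int.fract u + 1 / 6) - ∑ i ∈ range 1,
      1 / (i : ℝ) ^ 2 * cos (2 * π * i * Int.fract u) = VV u - 1 := by
    unfold VV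
    simp
  rw [e1] at h1
  refine hasSum_of_eq (fun n => ?_) h1
  push_cast
  congr 1
  have e2 : 2 * π * ((n : ℝ) + 1) * u = 2 * π * ((n : ℝ) + 1) * Int.fract u +
      (((n + 1 : ℕ) * ⌊u⌋ : ℤ) : ℝ) * (2 * π) := by
    have : u = Int.fract u + ⌊u⌋ := (Int.fract_add_floor u).symm
    conv_lhs => rw [this]
    push_cast
    ring
  rw [e2, Real.cos_add_int_mul_two_pi]

lemma sq_mul_tent {b : ℝ} (hb : 0 < b) (u : ℝ) :
    b ^ 2 * tent b u = max 0 (b - |u - round u|) := by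
  unfold tent
  have h1 : b ^ 2 * (1 / b * max 0 (1 - |u - round u| / b)) =
      b * max 0 (1 - |u - round u| / b) := by
    field_simp
  rw [h1, mul_max_of_nonneg _ _ hb.le, mul_zero]
  congr 1
  field_simp

lemma sq_mul_wt {b : ℝ} (hb : 0 < b) (h : ℕ) :
    0 ≤ b ^ 2 * wt b (h + 1) ∧ b ^ 2 * wt b (h + 1) ≤ 2 / (π ^ 2 * ((h : ℝ) + 1) ^ 2) := by
  refine ⟨mul_nonneg (sq_nonneg _) (wt_nonneg _ _), ?_⟩
  unfold wt
  rw [if_neg (by omega)]
  have h1 : (0 : ℝ) < (h : ℝ) + 1 := by positivity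
  push_cast
  have e : b ^ 2 * (2 * (sin (π * ((h : ℝ) + 1) * b) / (π * ((h : ℝ) + 1) * b)) ^ 2) =
      2 * sin (π * ((h : ℝ) + 1) * b) ^ 2 / (π ^ 2 * ((h : ℝ) + 1) ^ 2) := by
    field_simp
  rw [e]
  have h2 : sin (π * ((h : ℝ) + 1) * b) ^ 2 ≤ 1 := Real.sin_sq_le_one _
  gcongr
  linarith

lemma hasSum_tent' {b : ℝ} (hb0 : 0 < b) (hb : b ≤ 1 / 2) (u : ℝ) :
    HasSum (fun h : ℕ => wt b (h + 1) * cos (2 * π * ((h : ℝ) + 1) * u)) (tent b u - 1) := by
  have h1 := (hasSum_nat_add_iff' 1).mpr (hasSum_tent hb0 hb u)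
  have e1 : tent b u - ∑ i ∈ range 1, wt b i * cos (2 * π * i * u) = tent b u - 1 := by
    simp [wt_zero]
  rw [e1] at h1
  refine hasSum_of_eq (fun n => ?_) h1
  push_cast
  rfl

/-- outside an arc -/
lemma dist_of_fract {l β u : ℝ} (h : l ≤ Int.fract (u - β)) :
    l / 2 ≤ |(u - (β + l / 2)) - round (u - (β + l / 2))| := by
  set y := Int.fract (u - β) with hy
  have h1 : y < 1 := Int.fract_lt_one _
  have h2 : u - β = y + ⌊u - β⌋ := (Int.fract_add_floor _).symm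
  set r := round (u - (β + l / 2)) with hr
  have h3 : u - (β + l / 2) - r = y - l / 2 - ((r - ⌊u - β⌋ : ℤ) : ℝ) := by
    push_cast
    linarith
  rw [h3]
  rcases le_or_gt (r - ⌊u - β⌋) 0 with h4 | h4
  · have h5 : ((r - ⌊u - β⌋ : ℤ) : ℝ) ≤ 0 := by exact_mod_cast h4
    refine le_trans ?_ (le_abs_self _)
    linarith
  · have h5 : (1 : ℝ) ≤ ((r - ⌊u - β⌋ : ℤ) : ℝ) := by exact_mod_cast h4
    refine le_trans ?_ (neg_abs_le _ |> neg_le.mp |> le_of_eq_of_le rfl)
    linarith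

/-- **Trapezoid minorant of an arc.** -/
theorem trap {δ : ℝ} (hδ : 0 < δ) {l : ℝ} (hl0 : 0 ≤ l) (hl1 : l ≤ 1) (β : ℝ) :
    ∃ (κ : ℝ → ℝ) (m c : ℝ) (a : ℕ → ℝ), (∀ u, 0 ≤ κ u) ∧ (∀ u, κ u ≤ 1) ∧
      (∀ u, l ≤ Int.fract (u - β) → κ u = 0) ∧ l - δ / 2 ≤ m ∧ 0 ≤ m ∧ m ≤ l ∧
      (∀ h, |a h| ≤ (2 / δ) / ((h : ℝ) + 1) ^ 2) ∧
      ∀ u, HasSum (fun h : ℕ => a h * cos (2 * π * ((h : ℝ) + 1) * (u - c))) (κ u - m) := by
  rcases le_or_gt l (δ / 4) with hsmall | hbig
  · refine ⟨fun _ => 0, 0, 0, fun _ => 0, fun _ => le_rfl, fun _ => zero_le_one, fun _ _ => rfl,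
      by linarith, le_rfl, hl0, fun h => by rw [abs_zero]; positivity, fun u => ?_⟩
    simp
  · set w : ℝ := δ / 8 with hw
    have hw0 : 0 < w := by positivity
    set b₁ : ℝ := l / 2 with hb₁
    set b₂ : ℝ := l / 2 - w with hb₂
    have hb10 : 0 < b₁ := by linarith
    have hb20 : 0 < b₂ := by linarith
    have hb1 : b₁ ≤ 1 / 2 := by linarith
    have hb2 : b₂ ≤ 1 / 2 := by linarith
    set c : ℝ := β + l / 2 with hc
    refine ⟨fun u => (b₁ ^ 2 * tent b₁ (u - c) - b₂ ^ 2 * tent b₂ (u - c)) / w, l - w, c,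
      fun h => (b₁ ^ 2 * wt b₁ (h + 1) - b₂ ^ 2 * wt b₂ (h + 1)) / w, ?_, ?_, ?_, by linarith,
      by linarith, by linarith, ?_, ?_⟩
    · intro u
      show 0 ≤ (b₁ ^ 2 * tent b₁ (u - c) - b₂ ^ 2 * tent b₂ (u - c)) / w
      rw [sq_mul_tent hb10, sq_mul_tent hb20]
      refine div_nonneg (sub_nonneg.mpr (max_le_max le_rfl ?_)) hw0.le
      linarith
    · intro u
      show (b₁ ^ 2 * tent b₁ (u - c) - b₂ ^ 2 * tent b₂ (u - c)) / w ≤ 1
      rw [sq_mul_tent hb10, sq_mul_tent hb20, div_le_one hw0, sub_le_iff_le_add]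
      refine max_le ?_ ?_
      · have := le_max_left 0 (b₂ - |u - c - round (u - c)|)
        linarith
      · have := le_max_right 0 (b₂ - |u - c - round (u - c)|)
        linarith
    · intro u hu
      have h1 := dist_of_fract hu
      rw [← hc] at h1
      show (b₁ ^ 2 * tent b₁ (u - c) - b₂ ^ 2 * tent b₂ (u - c)) / w = 0
      rw [tent_eq_zero hb10 h1, tent_eq_zero hb20 (by linarith)]
      simp
    · intro h
      obtain ⟨p1, p2⟩ := sq_mul_wt hb10 h
      obtain ⟨q1, q2⟩ := sq_mul_wt hb20 h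
      have h1 : (0 : ℝ) < ((h : ℝ) + 1) ^ 2 := by positivity
      rw [abs_div, abs_of_pos hw0, div_le_iff₀ hw0]
      have h2 : |b₁ ^ 2 * wt b₁ (h + 1) - b₂ ^ 2 * wt b₂ (h + 1)| ≤
          2 / (π ^ 2 * ((h : ℝ) + 1) ^ 2) := by
        rw [abs_le]
        constructor <;> linarith
      refine h2.trans ?_
      have e : 2 / δ / ((h : ℝ) + 1) ^ 2 * w = (1 / 4) / ((h : ℝ) + 1) ^ 2 := by
        rw [hw]
        field_simp
        norm_num
      rw [e, ← div_div]
      have h3 : 2 / π ^ 2 ≤ 1 / 4 := by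
        have := Real.pi_gt_three
        rw [div_le_div_iff₀ (by positivity) (by norm_num)]
        nlinarith
      gcongr
    · intro u
      have h1 := (((hasSum_tent' hb10 hb1 (u - c)).mul_left (b₁ ^ 2)).sub
        ((hasSum_tent' hb20 hb2 (u - c)).mul_left (b₂ ^ 2))).div_const w
      have e : (b₁ ^ 2 * tent b₁ (u - c) - b₂ ^ 2 * tent b₂ (u - c)) / w - (l - w) =
          (b₁ ^ 2 * (tent b₁ (u - c) - 1) - b₂ ^ 2 * (tent b₂ (u - c) - 1)) / w := by
        generalize tent b₁ (u - c) = t₁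
        generalize tent b₂ (u - c) = t₂
        rw [hb₂, hb₁]
        field_simp
        ring
      show HasSum _ ((b₁ ^ 2 * tent b₁ (u - c) - b₂ ^ 2 * tent b₂ (u - c)) / w - (l - w))
      rw [e]
      refine hasSum_of_eq (fun h => ?_) h1
      ring

end Pool.Agent.Helper73.RG
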